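import Mathlib

set_option autoImplicit false
set_option linter.unusedSectionVars false

namespace Pool.Agent.Helper41.E243.Aff

open Finset
open scoped symmDiff

variable {E : Type*} [DecidableEq E]

/-- Closed under ternary symmetric difference. -/
def Affine (𝒜 : Finset (Finset E)) : Prop :=
  ∀ A ∈ 𝒜, ∀ B ∈ 𝒜, ∀ C ∈ 𝒜, A ∆ B ∆ C ∈ 𝒜

/-- Every subset of `T` is a trace of a member. -/
def Full (𝒜 : Finset (Finset E)) (T : Finset E) : Prop :=
  ∀ x ⊆ T, ∃ A ∈ 𝒜, A ∩ T = x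

/-- The members with trace `a` on `S`. -/
def fib (𝒜 : Finset (Finset E)) (S a : Finset E) : Finset (Finset E) :=
  𝒜.filter (fun A => A ∩ S = a)

/-- The traces on `T`. -/
def trc (𝒜 : Finset (Finset E)) (T : Finset E) : Finset (Finset E) :=
  𝒜.image (fun A => A ∩ T)

lemma symmDiff_inter (A B C T : Finset E) : (A ∆ B ∆ C) ∩ T = (A ∩ T) ∆ (B ∩ T) ∆ (C ∩ T) := by
  ext x
  simp only [mem_inter, mem_symmDiff]
  tauto

lemma affine_fib {𝒜 : Finset (Finset E)} (h : Affine 𝒜) (S a : Finset E) :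
    Affine (fib 𝒜 S a) := by
  intro A hA B hB C hC
  unfold fib at *
  rw [mem_filter] at *
  refine ⟨h A hA.1 B hB.1 C hC.1, ?_⟩
  rw [symmDiff_inter, hA.2, hB.2, hC.2, symmDiff_self, bot_symmDiff]

lemma affine_trc {𝒜 : Finset (Finset E)} (h : Affine 𝒜) (T : Finset E) :
    Affine (trc 𝒜 T) := by
  intro A hA B hB C hC
  unfold trc at *
  obtain ⟨A', hA', rfl⟩ := mem_image.1 hA
  obtain ⟨B', hB', rfl⟩ := mem_image.1 hB
  obtain ⟨C', hC', rfl⟩ := mem_image.1 hC
  rw [← symmDiff_inter]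
  exact mem_image_of_mem _ (h A' hA' B' hB' C' hC')

/-- A proper affine family of subsets of `T` has at most half of all subsets. -/
lemma card_affine_proper {𝒯 : Finset (Finset E)} {T : Finset E} (h : Affine 𝒯)
    (hne : 𝒯.Nonempty) (hsub : ∀ A ∈ 𝒯, A ⊆ T) (x : Finset E) (hx : x ⊆ T) (hx' : x ∉ 𝒯) :
    2 * 𝒯.card ≤ 2 ^ T.card := by
  obtain ⟨b, hb⟩ := hne
  have hinj : Function.Injective (fun c : Finset E => c ∆ b ∆ x) := by
    intro c c' hcc
    have := symmDiff_left_injective x hcc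
    exact symmDiff_left_injective b this
  have h1 : (𝒯.image (fun c => c ∆ b ∆ x)).card = 𝒯.card := card_image_of_injective _ hinj
  have hdisj : Disjoint 𝒯 (𝒯.image (fun c => c ∆ b ∆ x)) := by
    rw [Finset.disjoint_left]
    intro d hd hd'
    obtain ⟨c, hc, rfl⟩ := mem_image.1 hd'
    apply hx'
    have h2 := h _ hd c hc b hb
    have h3 : (c ∆ b ∆ x) ∆ c ∆ b = x := by
      ext y
      simp only [mem_symmDiff]
      tauto
    rwa [h3] at h2
  have hsub2 : 𝒯 ∪ 𝒯.image (fun c => c ∆ b ∆ x) ⊆ T.powerset := by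
    intro d hd
    rw [mem_powerset]
    rcases mem_union.1 hd with hd | hd
    · exact hsub d hd
    · obtain ⟨c, hc, rfl⟩ := mem_image.1 hd
      intro y hy
      simp only [mem_symmDiff] at hy
      have h1 := @hsub c hc y
      have h2 := @hsub b hb y
      have h3 := @hx y
      tauto
  have := card_le_card hsub2
  rw [card_union_of_disjoint hdisj, h1, card_powerset] at this
  omega

/-- If the family is full on `S` but not on `S ∪ T`, then every fibre over `S` is proper on `T`. -/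
lemma proper_fib {𝒜 : Finset (Finset E)} (h : Affine 𝒜) (S T a : Finset E)
    (ha : a ⊆ S) (hS : Full 𝒜 S) (hTn : ¬ Full 𝒜 (S ∪ T)) :
    ∃ x ⊆ T, x ∉ trc (fib 𝒜 S a) T := by
  by_contra hcon
  push Not at hcon
  apply hTn
  intro z hz
  obtain ⟨A, hA, hAS⟩ := hS (z ∩ S) inter_subset_right
  obtain ⟨B, hB, hBS⟩ := hS a ha
  have hx : ((A ∩ T) ∆ (B ∩ T) ∆ (z ∩ T)) ⊆ T := by
    intro y hy
    simp only [mem_symmDiff, mem_inter] at hy
    tauto
  obtain ⟨C, hC, hCT⟩ := mem_image.1 (hcon _ hx)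
  unfold fib at hC
  rw [mem_filter] at hC
  refine ⟨A ∆ B ∆ C, h A hA B hB C hC.1, ?_⟩
  have e1 : (A ∆ B ∆ C) ∩ S = z ∩ S := by
    rw [symmDiff_inter, hAS, hBS, hC.2, symmDiff_assoc, symmDiff_self, symmDiff_bot]
  have e2 : (A ∆ B ∆ C) ∩ T = z ∩ T := by
    rw [symmDiff_inter, hCT, ← symmDiff_assoc, symmDiff_self, bot_symmDiff]
  rw [inter_union_distrib_left, e1, e2, ← inter_union_distrib_left, inter_eq_left.2 hz]

lemma full_empty {𝒜 : Finset (Finset E)} (h : 𝒜.Nonempty) : Full 𝒜 ∅ := by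
  intro x hx
  obtain ⟨A, hA⟩ := h
  refine ⟨A, hA, ?_⟩
  rw [inter_empty, subset_empty.1 hx]

/-- Some fibre is at least as large as the average. -/
lemma exists_large_fib (𝒜 : Finset (Finset E)) (S : Finset E) :
    ∃ a ⊆ S, 𝒜.card ≤ 2 ^ S.card * (fib 𝒜 S a).card := by
  have h1 : ∀ A ∈ 𝒜, A ∩ S ∈ S.powerset := fun A _ => mem_powerset.2 inter_subset_right
  have h2 := card_eq_sum_card_fiberwise (f := fun A => A ∩ S) (s := 𝒜) (t := S.powerset) h1
  by_contra hcon
  push Not at hcon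
  have h3 : ∑ a ∈ S.powerset, 2 ^ S.card * (fib 𝒜 S a).card < ∑ a ∈ S.powerset, 𝒜.card := by
    apply sum_lt_sum_of_nonempty ⟨∅, empty_mem_powerset _⟩
    intro a ha
    exact hcon a (mem_powerset.1 ha)
  rw [← mul_sum, sum_const, card_powerset, smul_eq_mul] at h3
  have h4 : ∑ a ∈ S.powerset, (fib 𝒜 S a).card = 𝒜.card := h2.symm
  rw [h4] at h3
  exact lt_irrefl _ h3

end Pool.Agent.Helper41.E243.Aff
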