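import Mathlib
import Pool.Agent.Helper41.E243.Affine

set_option autoImplicit false
set_option linter.unusedSectionVars false

namespace Pool.Agent.Helper41.E243.Aff

open Finset
open scoped symmDiff

variable {V : Type*} [DecidableEq V]

/-- The edges inside `W`. -/
def EW (W : Finset V) : Finset (Sym2 V) := W.sym2.filter (fun e => ¬ e.IsDiag)

/-- The edges from `w` to `U`. -/
def star (w : V) (U : Finset V) : Finset (Sym2 V) := U.image (fun u => s(w, u))

lemma mem_EW {W : Finset V} {u v : V} : s(u, v) ∈ EW W ↔ u ∈ W ∧ v ∈ W ∧ u ≠ v := by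
  simp only [EW, mem_filter, mk_mem_sym2_iff, Sym2.mk_isDiag_iff, and_assoc, ne_eq]

lemma mem_star {w : V} {U : Finset V} {x y : V} :
    s(x, y) ∈ star w U ↔ (x = w ∧ y ∈ U) ∨ (y = w ∧ x ∈ U) := by
  simp only [star, mem_image, Sym2.eq_iff]
  constructor
  · rintro ⟨u, hu, ⟨rfl, rfl⟩ | ⟨rfl, rfl⟩⟩
    · exact Or.inl ⟨rfl, hu⟩
    · exact Or.inr ⟨rfl, hu⟩
  · rintro (⟨rfl, hy⟩ | ⟨rfl, hx⟩)
    · exact ⟨y, hy, Or.inl ⟨rfl, rfl⟩⟩
    · exact ⟨x, hx, Or.inr ⟨rfl, rfl⟩⟩

lemma card_star (w : V) (U : Finset V) : (star w U).card = U.card := by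
  apply card_image_of_injective
  intro u v h
  have h1 : s(w, u) = s(w, v) := h
  rw [Sym2.eq_iff] at h1
  rcases h1 with ⟨_, h1⟩ | ⟨h1, h2⟩
  · exact h1
  · exact h2.trans h1

lemma EW_insert (w : V) (U : Finset V) (hw : w ∉ U) : EW (insert w U) = EW U ∪ star w U := by
  ext e
  induction e using Sym2.ind with
  | _ x y =>
    rw [mem_union, mem_EW, mem_EW, mem_star]
    simp only [mem_insert]
    constructor
    · rintro ⟨h1 | h1, h2 | h2, h3⟩
      · exact absurd (h1.trans h2.symm) h3
      · exact Or.inr (Or.inl ⟨h1, h2⟩)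
      · exact Or.inr (Or.inr ⟨h2, h1⟩)
      · exact Or.inl ⟨h1, h2, h3⟩
    · rintro (⟨h1, h2, h3⟩ | ⟨h1, h2⟩ | ⟨h1, h2⟩)
      · exact ⟨Or.inr h1, Or.inr h2, h3⟩
      · exact ⟨Or.inl h1, Or.inr h2, fun h => hw (by rw [← h1, h]; exact h2)⟩
      · exact ⟨Or.inr h2, Or.inl h1, fun h => hw (by rw [← h1, ← h]; exact h2)⟩

lemma card_EW (W : Finset V) : (EW W).card = W.card.choose 2 := by
  induction W using Finset.induction_on with
  | empty => simp [EW]
  | insert w U hw ih =>
    rw [EW_insert w U hw, card_union_of_disjoint, ih, card_star, card_insert_of_notMem hw,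
      Nat.choose_succ_succ' _ 1, Nat.choose_one_right, add_comm]
    rw [Finset.disjoint_left]
    intro e he he'
    induction e using Sym2.ind with
    | _ x y =>
      rw [mem_EW] at he
      rw [mem_star] at he'
      rcases he' with ⟨h1, _⟩ | ⟨h1, _⟩
      · exact hw (h1 ▸ he.1)
      · exact hw (h1 ▸ he.2.1)

/-- The edges inside `W` with both ends of the same colour. -/
def mon (W : Finset V) (f : V → ℕ) : Finset (Sym2 V) := (EW W).filter (fun e => (e.map f).IsDiag)

lemma mem_mon {W : Finset V} {f : V → ℕ} {u v : V} :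
    s(u, v) ∈ mon W f ↔ u ∈ W ∧ v ∈ W ∧ u ≠ v ∧ f u = f v := by
  simp only [mon, mem_filter, mem_EW, Sym2.map_mk, Sym2.mk_isDiag_iff, and_assoc]

lemma choose_two_add (a b : ℕ) : (a + b).choose 2 = a.choose 2 + a * b + b.choose 2 := by
  induction b with
  | zero => simp
  | succ b ih =>
    rw [← add_assoc, Nat.choose_succ_succ' _ 1, ih, Nat.choose_one_right,
      Nat.choose_succ_succ' b 1, Nat.choose_one_right]
    ring

/-- An affine family that is not full on any set of monochromatic edges of a colouring with
`t - 1` colours is small. -/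
theorem affine_bound (t : ℕ) : ∀ (W : Finset V) (𝒜 : Finset (Finset (Sym2 V))), 𝒜.Nonempty →
    (∀ A ∈ 𝒜, A ⊆ EW W) → Affine 𝒜 →
    (∀ f : V → ℕ, (∀ v ∈ W, f v < t - 1) → ¬ Full 𝒜 (mon W f)) →
    𝒜.card * 2 ^ (t.choose 2) ≤ 2 ^ (EW W).card := by
  classical
  induction t with
  | zero =>
    intro W 𝒜 _ hsub _ _
    rw [show Nat.choose 0 2 = 0 from rfl, pow_zero, mul_one, ← card_powerset]
    exact card_le_card (fun A hA => mem_powerset.2 (hsub A hA))
  | succ t ih =>
    intro W 𝒜 hne hsub haff hχ
    rcases Nat.eq_zero_or_pos t with ht | ht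
    · subst ht
      rw [show Nat.choose (0 + 1) 2 = 0 from rfl, pow_zero, mul_one, ← card_powerset]
      exact card_le_card (fun A hA => mem_powerset.2 (hsub A hA))
    -- a maximal full set of vertices
    obtain ⟨U, hU, hmax⟩ := exists_max_image (W.powerset.filter (fun U => Full 𝒜 (EW U)))
      (fun U => U.card) ⟨∅, by
        rw [mem_filter]
        exact ⟨empty_mem_powerset _, by simpa [EW] using full_empty hne⟩⟩
    rw [mem_filter, mem_powerset] at hU
    obtain ⟨hUW, hUfull⟩ := hU
    set W' := W \ U with hW'
    have hdisj : Disjoint U W' := disjoint_sdiff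
    have hWU : W = U ∪ W' := (union_sdiff_of_subset hUW).symm
    have hstar : ∀ w ∈ W', ¬ Full 𝒜 (EW U ∪ star w U) := by
      intro w hw hfull
      rw [mem_sdiff] at hw
      rw [← EW_insert w U hw.2] at hfull
      have h1 := hmax (insert w U) (mem_filter.2 ⟨mem_powerset.2 (insert_subset hw.1 hUW), hfull⟩)
      rw [card_insert_of_notMem hw.2] at h1
      omega
    obtain ⟨a, haU, hacard⟩ := exists_large_fib 𝒜 (EW U)
    set ℱ := fib 𝒜 (EW U) a with hℱ
    have hℱne : ℱ.Nonempty := by
      rw [nonempty_iff_ne_empty]
      intro h0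
      rw [h0, card_empty, mul_zero] at hacard
      have := hne.card_pos
      omega
    set 𝒜' := trc ℱ (EW W') with h𝒜'
    have h𝒜'aff : Affine 𝒜' := affine_trc (affine_fib haff _ _) _
    -- colourings of the rest
    have hcol : ∀ g : V → ℕ, (∀ v ∈ W', g v < t - 1) → ¬ Full 𝒜' (mon W' g) := by
      intro g hg hfull
      have h1 : mon W (fun v => if v ∈ U then t - 1 else g v) = EW U ∪ mon W' g := by
        ext e
        induction e using Sym2.ind with
        | _ x y =>
          rw [mem_union, mem_mon, mem_mon, mem_EW, hWU]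
          simp only [mem_union]
          by_cases hx : x ∈ U <;> by_cases hy : y ∈ U
          · have hx' : x ∉ W' := fun h => Finset.disjoint_left.1 hdisj hx h
            simp [hx, hy, hx']
          · have hx' : x ∉ W' := fun h => Finset.disjoint_left.1 hdisj hx h
            simp only [hx, hy, hx', if_true, if_false, false_or, false_and, or_false,
              true_and, and_false]
            constructor
            · rintro ⟨h2, _, h3⟩
              have := hg y h2
              omega
            · exact False.elim
          · have hy' : y ∉ W' := fun h => Finset.disjoint_left.1 hdisj hy h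
            simp only [hx, hy, hy', if_true, if_false, false_or, false_and, or_false,
              true_and, and_false]
            constructor
            · rintro ⟨h2, _, h3⟩
              have := hg x h2
              omega
            · exact False.elim
          · simp only [hx, hy, if_false, false_or, false_and]
      have h2 : ¬ Full 𝒜 (EW U ∪ mon W' g) := by
        rw [← h1]
        apply hχ
        intro v hv
        by_cases hvU : v ∈ U
        · simp only [hvU, if_true]; omega
        · simp only [hvU, if_false]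
          have := hg v (mem_sdiff.2 ⟨hv, hvU⟩)
          omega
      obtain ⟨x, hx, hx'⟩ := proper_fib haff (EW U) (mon W' g) a haU hUfull h2
      obtain ⟨A, hA, hAx⟩ := hfull x hx
      obtain ⟨B, hB, rfl⟩ := mem_image.1 hA
      apply hx'
      refine mem_image.2 ⟨B, hB, ?_⟩
      have hsubm : mon W' g ⊆ EW W' := filter_subset _ _
      rw [← hAx, inter_assoc, inter_eq_right.2 hsubm]
    have hrec := ih W' 𝒜' (hℱne.image _) (by
      intro A hA
      obtain ⟨B, _, rfl⟩ := mem_image.1 hA
      exact inter_subset_right) h𝒜'aff hcol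
    -- the rest has at least `t` vertices
    have hWcard : t ≤ W'.card := by
      by_contra hlt
      push Not at hlt
      obtain ⟨g, hg1, hg2⟩ : ∃ g : V → ℕ, (∀ v ∈ W', g v < t - 1) ∧ Set.InjOn g W' := by
        let e := W'.equivFin
        refine ⟨fun v => if h : v ∈ W' then (e ⟨v, h⟩ : ℕ) else 0, ?_, ?_⟩
        · intro v hv
          simp only [hv, dif_pos]
          have := (e ⟨v, hv⟩).2
          omega
        · intro u hu v hv huv
          have hu' : u ∈ W' := hu
          have hv' : v ∈ W' := hv
          simp only [hu', hv', dif_pos] at huv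
          have := e.injective (Fin.ext huv)
          simpa using this
      apply hcol g hg1
      have : mon W' g = ∅ := by
        ext e
        induction e using Sym2.ind with
        | _ x y =>
          rw [mem_mon]
          simp only [notMem_empty, iff_false, not_and]
          intro hx hy hxy h
          exact hxy (hg2 hx hy h)
      rw [this]
      exact full_empty (hℱne.image _)
    -- count the fibre
    have hfib : ℱ.card ≤ (∏ w ∈ W', (trc ℱ (star w U)).card) * 𝒜'.card := by
      rw [← card_pi, ← card_product]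
      apply card_le_card_of_injOn (fun A => (fun w _ => A ∩ star w U, A ∩ EW W'))
      · intro A hA
        rw [mem_coe, mem_product, mem_pi]
        exact ⟨fun w _ => mem_image_of_mem _ hA, mem_image_of_mem _ hA⟩
      · intro A hA B hB hAB
        rw [Prod.mk.injEq] at hAB
        obtain ⟨h1, h2⟩ := hAB
        have hA' := mem_filter.1 (mem_coe.1 hA)
        have hB' := mem_filter.1 (mem_coe.1 hB)
        have key : ∀ e ∈ EW W, (e ∈ A ↔ e ∈ B) := by
          intro e he
          induction e using Sym2.ind with
          | _ x y =>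
            rw [mem_EW, hWU, mem_union, mem_union] at he
            obtain ⟨hx, hy, hxy⟩ := he
            have aux : ∀ T : Finset (Sym2 V), A ∩ T = B ∩ T → s(x, y) ∈ T →
                (s(x, y) ∈ A ↔ s(x, y) ∈ B) := by
              intro T hT hmem
              have : s(x, y) ∈ A ∩ T ↔ s(x, y) ∈ B ∩ T := by rw [hT]
              simpa [hmem] using this
            rcases hx with hx | hx <;> rcases hy with hy | hy
            · exact aux (EW U) (hA'.2.trans hB'.2.symm) (mem_EW.2 ⟨hx, hy, hxy⟩)
            · exact aux (star y U) (congrFun (congrFun h1 y) hy)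
                (mem_star.2 (Or.inr ⟨rfl, hx⟩))
            · exact aux (star x U) (congrFun (congrFun h1 x) hx)
                (mem_star.2 (Or.inl ⟨rfl, hy⟩))
            · exact aux (EW W') h2 (mem_EW.2 ⟨hx, hy, hxy⟩)
        ext e
        exact ⟨fun h => (key e (hsub A hA'.1 h)).1 h, fun h => (key e (hsub B hB'.1 h)).2 h⟩
    have hw2 : ∀ w ∈ W', 2 * (trc ℱ (star w U)).card ≤ 2 ^ U.card := by
      intro w hw
      obtain ⟨x, hx, hx'⟩ := proper_fib haff (EW U) (star w U) a haU hUfull (hstar w hw)
      have := card_affine_proper (affine_trc (affine_fib haff (EW U) a) (star w U))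
        (hℱne.image _) (by
          intro A hA
          obtain ⟨B, _, rfl⟩ := mem_image.1 hA
          exact inter_subset_right) x hx hx'
      rwa [card_star] at this
    have hprod : 2 ^ W'.card * ∏ w ∈ W', (trc ℱ (star w U)).card ≤ 2 ^ (U.card * W'.card) := by
      rw [← prod_const, ← prod_mul_distrib, pow_mul, ← prod_const]
      exact prod_le_prod' hw2
    -- combine
    have hEW : (EW W).card = (EW U).card + U.card * W'.card + (EW W').card := by
      rw [card_EW, card_EW, card_EW]
      have : W.card = U.card + W'.card := by rw [hWU, card_union_of_disjoint hdisj]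
      rw [this, choose_two_add]
    rw [hEW, pow_add, pow_add, Nat.choose_succ_succ' t 1, Nat.choose_one_right, pow_add]
    calc 𝒜.card * (2 ^ t * 2 ^ t.choose 2)
        ≤ (2 ^ (EW U).card * ℱ.card) * (2 ^ W'.card * 2 ^ t.choose 2) := by
          gcongr
          norm_num
      _ ≤ (2 ^ (EW U).card * ((∏ w ∈ W', (trc ℱ (star w U)).card) * 𝒜'.card)) *
          (2 ^ W'.card * 2 ^ t.choose 2) := by gcongr
      _ = 2 ^ (EW U).card * (2 ^ W'.card * ∏ w ∈ W', (trc ℱ (star w U)).card) *
          (𝒜'.card * 2 ^ t.choose 2) := by ring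
      _ ≤ 2 ^ (EW U).card * 2 ^ (U.card * W'.card) * 2 ^ (EW W').card := by gcongr

end Pool.Agent.Helper41.E243.Aff
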