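import Mathlib

set_option autoImplicit false

namespace Pool.Agent.Helper41.E243

open Real

lemma log_two_gt : (2 : ℝ) / 3 < log 2 := by
  have := log_two_gt_d9
  linarith

lemma log_two_lt : log 2 < (7 : ℝ) / 10 := by
  have := log_two_lt_d9
  linarith

/-- `v + (1 - v) log (1 - v) ≥ v^2 / 2`. -/
lemma aux_one (v : ℝ) (h0 : 0 ≤ v) (h1 : v < 1) : v ^ 2 / 2 ≤ v + (1 - v) * log (1 - v) := by
  let f : ℝ → ℝ := fun v => v + (1 - v) * log (1 - v) - v ^ 2 / 2
  have hd : ∀ x : ℝ, x < 1 → HasDerivAt f (-log (1 - x) - x) x := by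
    intro x hx
    have e1 : HasDerivAt (fun v : ℝ => 1 - v) (-1) x := by
      simpa using (hasDerivAt_id' x).const_sub 1
    have e2 := e1.log (sub_pos.2 hx).ne'
    have e3 := ((hasDerivAt_id' x).add (e1.mul e2)).sub ((hasDerivAt_pow 2 x).div_const 2)
    refine e3.congr_deriv ?_
    have : (1 - x) ≠ 0 := (sub_pos.2 hx).ne'
    push_cast
    field_simp
    ring
  have hmono : MonotoneOn f (Set.Ico 0 1) := by
    apply monotoneOn_of_deriv_nonneg (convex_Ico 0 1)
    · intro x hx
      exact (hd x hx.2).continuousAt.continuousWithinAt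
    · intro x hx
      rw [interior_Ico] at hx
      exact (hd x hx.2).differentiableAt.differentiableWithinAt
    · intro x hx
      rw [interior_Ico] at hx
      rw [(hd x hx.2).deriv]
      have := log_le_sub_one_of_pos (sub_pos.2 hx.2)
      linarith
  have h := hmono (Set.mem_Ico.2 ⟨le_rfl, one_pos⟩) (Set.mem_Ico.2 ⟨h0, h1⟩) h0
  simp only [f] at h
  norm_num at h
  linarith

/-- The auxiliary ratio is monotone. -/
lemma ratio_mono : MonotoneOn
    (fun v : ℝ => -log (1 - v) * (log 2 / v - (1 - log 2))) (Set.Ioo 0 1) := by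
  have ha := log_two_gt
  have hb := log_two_lt
  have hd : ∀ x : ℝ, 0 < x → x < 1 → HasDerivAt
      (fun v : ℝ => -log (1 - v) * (log 2 / v - (1 - log 2)))
      ((1 / (1 - x)) * (log 2 / x - (1 - log 2)) + -log (1 - x) * (-log 2 / x ^ 2)) x := by
    intro x hx0 hx
    have e1 : HasDerivAt (fun v : ℝ => 1 - v) (-1) x := by
      simpa using (hasDerivAt_id' x).const_sub 1
    have e2 : HasDerivAt (fun v : ℝ => -log (1 - v)) (-(-1 / (1 - x))) x :=
      (e1.log (sub_pos.2 hx).ne').neg
    have e3 : HasDerivAt (fun v : ℝ => log 2 / v - (1 - log 2)) (-log 2 / x ^ 2) x := by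
      have := ((hasDerivAt_inv hx0.ne').const_mul (log 2)).sub_const (1 - log 2)
      refine this.congr_deriv ?_
      field_simp
    refine (e2.mul e3).congr_deriv ?_
    have : (1 - x) ≠ 0 := (sub_pos.2 hx).ne'
    simp only [neg_div, neg_neg]
  apply monotoneOn_of_deriv_nonneg (convex_Ioo 0 1)
  · intro x hx
    exact (hd x hx.1 hx.2).continuousAt.continuousWithinAt
  · intro x hx
    rw [interior_Ioo] at hx
    exact (hd x hx.1 hx.2).differentiableAt.differentiableWithinAt
  · intro x hx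
    rw [interior_Ioo] at hx
    obtain ⟨hx0, hx1⟩ := hx
    rw [(hd x hx0 hx1).deriv]
    have h1x : 0 < 1 - x := sub_pos.2 hx1
    have key := aux_one x hx0.le hx1
    have e : (1 / (1 - x)) * (log 2 / x - (1 - log 2)) + -log (1 - x) * (-log 2 / x ^ 2) =
        (log 2 * (x + (1 - x) * log (1 - x)) - (1 - log 2) * x ^ 2) / (x ^ 2 * (1 - x)) := by
      field_simp
      ring
    rw [e]
    apply div_nonneg _ (by positivity)
    nlinarith [sq_nonneg x]

/-- `w`. -/
noncomputable def ww (s : ℝ) : ℝ :=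
  log (1 + s) - log (1 - s) - s * (2 * log 2 - log (1 - s ^ 2)) / (log 2 + (1 - log 2) * s ^ 2)

lemma hasDeriv_ww (s : ℝ) (h0 : 0 ≤ s) (h1 : s < 1) : HasDerivAt ww
    ((4 * log 2 * (1 - log 2) * s ^ 2 + log (1 - s ^ 2) * (log 2 - (1 - log 2) * s ^ 2)) /
      (log 2 + (1 - log 2) * s ^ 2) ^ 2) s := by
  have ha := log_two_gt
  have hb := log_two_lt
  have hs2 : 0 < 1 - s ^ 2 := by nlinarith
  have hQ : 0 < log 2 + (1 - log 2) * s ^ 2 := by
    have : 0 ≤ (1 - log 2) * s ^ 2 := mul_nonneg (by linarith) (sq_nonneg s)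
    linarith
  have e1 : HasDerivAt (fun s : ℝ => log (1 + s)) (1 / (1 + s)) s :=
    ((hasDerivAt_id' s).const_add 1).log (by linarith)
  have e2 : HasDerivAt (fun s : ℝ => log (1 - s)) (-1 / (1 - s)) s := by
    have := (hasDerivAt_id' s).const_sub 1
    exact this.log (by linarith)
  have e3 : HasDerivAt (fun s : ℝ => 1 - s ^ 2) (-(2 * s)) s := by
    have := (hasDerivAt_pow 2 s).const_sub 1
    simpa using this
  have e4 := (e3.log hs2.ne').const_sub (2 * log 2)
  have e5 : HasDerivAt (fun s : ℝ => log 2 + (1 - log 2) * s ^ 2) ((1 - log 2) * (2 * s)) s := by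
    have := ((hasDerivAt_pow 2 s).const_mul (1 - log 2)).const_add (log 2)
    simpa using this
  have e5' : HasDerivAt (fun s : ℝ => s * (2 * log 2 - log (1 - s ^ 2)))
      (1 * (2 * log 2 - log (1 - s ^ 2)) + s * -(-(2 * s) / (1 - s ^ 2))) s :=
    (hasDerivAt_id' s).mul e4
  have e6 := e5'.div e5 hQ.ne'
  have e7 := (e1.sub e2).sub e6
  refine e7.congr_deriv ?_
  have h1s : (1 - s) ≠ 0 := by linarith
  have h1s' : (1 + s) ≠ 0 := by linarith
  have hfac : 1 / (1 + s) - -1 / (1 - s) = 2 / (1 - s ^ 2) := by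
    have : (1 - s ^ 2) ≠ 0 := hs2.ne'
    field_simp
    ring
  rw [hfac]
  generalize log (1 - s ^ 2) = L
  clear e1 e2 e3 e4 e5 e5' e6 e7 hfac
  generalize log 2 = a at *
  obtain ⟨D, hD⟩ : ∃ D : ℝ, D = 1 - s ^ 2 := ⟨_, rfl⟩
  obtain ⟨Q, hQd⟩ : ∃ Q : ℝ, Q = a + (1 - a) * s ^ 2 := ⟨_, rfl⟩
  rw [← hD, ← hQd]
  have h3 : D ≠ 0 := by rw [hD]; exact hs2.ne'
  have h4 : Q ≠ 0 := by rw [hQd]; exact hQ.ne'
  field_simp
  rw [hQd, hD]
  ring

/-- `z = (a + b s^2) w`, written without denominators. -/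
noncomputable def zz (s : ℝ) : ℝ :=
  (1 + s) * (log 2 + (1 - log 2) * s) * log (1 + s) -
    (log 2 - (1 - log 2) * s) * ((1 - s) * log (1 - s)) - 2 * log 2 * s

lemma zz_eq (s : ℝ) (h0 : 0 ≤ s) (h1 : s < 1) :
    zz s = (log 2 + (1 - log 2) * s ^ 2) * ww s := by
  have ha := log_two_gt
  have hb := log_two_lt
  have hQ : 0 < log 2 + (1 - log 2) * s ^ 2 := by
    have : 0 ≤ (1 - log 2) * s ^ 2 := mul_nonneg (by linarith) (sq_nonneg s)
    linarith
  have hfac : 1 - s ^ 2 = (1 + s) * (1 - s) := by ring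
  have hlog : log (1 - s ^ 2) = log (1 + s) + log (1 - s) := by
    rw [hfac, log_mul (by linarith) (by linarith)]
  unfold zz ww
  rw [hlog, mul_sub, mul_div_cancel₀ _ hQ.ne']
  ring

lemma zz_continuousOn : ContinuousOn zz (Set.Icc 0 1) := by
  have h1 : Continuous (fun s : ℝ => (1 - s) * log (1 - s)) :=
    continuous_mul_log.comp (continuous_const.sub continuous_id)
  have h2 : ContinuousOn (fun s : ℝ => log (1 + s)) (Set.Icc 0 1) := by
    apply ContinuousOn.log
    · fun_prop
    · intro x hx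
      have := hx.1
      positivity
  unfold zz
  fun_prop

lemma ww_nonneg (s : ℝ) (h0 : 0 < s) (h1 : s < 1) : 0 ≤ ww s := by
  have ha := log_two_gt
  have hb := log_two_lt
  have hsq : ∀ x : ℝ, 0 < x → x < 1 → 0 < x ^ 2 ∧ x ^ 2 < 1 := fun x hx0 hx1 =>
    ⟨by positivity, by nlinarith⟩
  have hcont : ∀ x : ℝ, 0 ≤ x → x < 1 → ContinuousAt ww x := fun x hx0 hx1 =>
    (hasDeriv_ww x hx0 hx1).continuousAt
  have hM : ∀ x : ℝ, 0 < x → x < 1 →
      4 * log 2 * (1 - log 2) * x ^ 2 + log (1 - x ^ 2) * (log 2 - (1 - log 2) * x ^ 2) =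
      x ^ 2 * (4 * log 2 * (1 - log 2) -
        -log (1 - x ^ 2) * (log 2 / x ^ 2 - (1 - log 2))) := by
    intro x hx0 _
    field_simp
    ring
  rcases le_or_gt (-log (1 - s ^ 2) * (log 2 / s ^ 2 - (1 - log 2)))
    (4 * log 2 * (1 - log 2)) with hR | hR
  · -- increasing on [0, s]
    have hmono : MonotoneOn ww (Set.Icc 0 s) := by
      apply monotoneOn_of_deriv_nonneg (convex_Icc 0 s)
      · intro x hx
        exact (hcont x hx.1 (lt_of_le_of_lt hx.2 h1)).continuousWithinAt
      · intro x hx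
        rw [interior_Icc] at hx
        exact (hasDeriv_ww x hx.1.le (hx.2.trans h1)).differentiableAt.differentiableWithinAt
      · intro x hx
        rw [interior_Icc] at hx
        have hx1 := hx.2.trans h1
        rw [(hasDeriv_ww x hx.1.le hx1).deriv, hM x hx.1 hx1]
        have hle : x ^ 2 ≤ s ^ 2 := by
          have := hx.1
          have := hx.2
          nlinarith
        have := ratio_mono (hsq x hx.1 hx1) (hsq s h0 h1) hle
        simp only at this
        apply div_nonneg _ (by positivity)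
        apply mul_nonneg (by positivity)
        linarith
    have h := hmono ⟨le_rfl, h0.le⟩ ⟨h0.le, le_rfl⟩ h0.le
    have hw0 : ww 0 = 0 := by unfold ww; simp
    rw [hw0] at h
    exact h
  · -- decreasing on [s, 1)
    by_contra hneg
    push Not at hneg
    have hanti : AntitoneOn ww (Set.Ico s 1) := by
      apply antitoneOn_of_deriv_nonpos (convex_Ico s 1)
      · intro x hx
        exact (hcont x (h0.le.trans hx.1) hx.2).continuousWithinAt
      · intro x hx
        rw [interior_Ico] at hx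
        exact (hasDeriv_ww x (h0.trans hx.1).le hx.2).differentiableAt.differentiableWithinAt
      · intro x hx
        rw [interior_Ico] at hx
        have hx0 := h0.trans hx.1
        rw [(hasDeriv_ww x hx0.le hx.2).deriv, hM x hx0 hx.2]
        have hle : s ^ 2 ≤ x ^ 2 := by
          have := hx.1
          nlinarith
        have := ratio_mono (hsq s h0 h1) (hsq x hx0 hx.2) hle
        simp only at this
        apply div_nonpos_of_nonpos_of_nonneg _ (by positivity)
        apply mul_nonpos_of_nonneg_of_nonpos (by positivity)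
        linarith
    have hz : ∀ x ∈ Set.Ico s 1, zz x ≤ log 2 * ww s := by
      intro x hx
      have hx0 : 0 ≤ x := h0.le.trans hx.1
      rw [zz_eq x hx0 hx.2]
      have h2 : ww x ≤ ww s := hanti ⟨le_rfl, h1⟩ hx hx.1
      have h3 : log 2 ≤ log 2 + (1 - log 2) * x ^ 2 := by
        have : 0 ≤ (1 - log 2) * x ^ 2 := mul_nonneg (by linarith) (sq_nonneg x)
        linarith
      nlinarith
    have hz1 : zz 1 = 0 := by
      unfold zz
      norm_num
    have hlim : Filter.Tendsto zz (nhdsWithin 1 (Set.Ico s 1)) (nhds (zz 1)) := by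
      have := zz_continuousOn 1 ⟨zero_le_one, le_rfl⟩
      exact this.mono_left (nhdsWithin_mono 1 (fun x hx => ⟨h0.le.trans hx.1, hx.2.le⟩))
    have hne : (nhdsWithin (1 : ℝ) (Set.Ico s 1)).NeBot := by
      rw [nhdsWithin_Ico_eq_nhdsLT h1]
      infer_instance
    have := le_of_tendsto hlim (Filter.eventually_of_mem self_mem_nhdsWithin hz)
    rw [hz1] at this
    nlinarith

lemma zz_nonneg (s : ℝ) (h0 : 0 < s) (h1 : s < 1) : 0 ≤ zz s := by
  have ha := log_two_gt
  have hb := log_two_lt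
  rw [zz_eq s h0.le h1]
  apply mul_nonneg _ (ww_nonneg s h0 h1)
  have : 0 ≤ (1 - log 2) * s ^ 2 := mul_nonneg (by linarith) (sq_nonneg s)
  linarith

/-- `κ`. -/
noncomputable def kap (s : ℝ) : ℝ := (1 + s) * log (1 + s) + (1 - s) * log (1 - s)

lemma kap_lt (s : ℝ) (h0 : 0 ≤ s) (h1 : s < 1) : kap s < 2 * log 2 := by
  have ha := log_two_gt
  have e1 : log (1 + s) ≤ log 2 := log_le_log (by linarith) (by linarith)
  have e2 : log (1 - s) ≤ 0 := log_nonpos (by linarith) (by linarith)
  unfold kap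
  nlinarith

/-- Topsøe's bound, logarithmic form. -/
lemma topsoe_log (s : ℝ) (h0 : 0 ≤ s) (h1 : s < 1) :
    2 * log 2 * log (1 - kap s / (2 * log 2)) ≤ log (1 - s ^ 2) := by
  have ha := log_two_gt
  have hb := log_two_lt
  let Y : ℝ → ℝ := fun s => log (1 - s ^ 2) - 2 * log 2 * log (1 - kap s / (2 * log 2))
  have hkd : ∀ x : ℝ, 0 ≤ x → x < 1 → 0 < 1 - kap x / (2 * log 2) := by
    intro x hx0 hx1
    have := kap_lt x hx0 hx1
    rw [sub_pos, div_lt_one (by linarith)]
    exact this
  have hd : ∀ x : ℝ, 0 ≤ x → x < 1 → HasDerivAt Y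
      (2 * zz x / ((1 - x ^ 2) * (2 * log 2 - kap x))) x := by
    intro x hx0 hx1
    have hx2 : 0 < 1 - x ^ 2 := by nlinarith
    have e1 : HasDerivAt (fun s : ℝ => log (1 + s)) (1 / (1 + x)) x :=
      ((hasDerivAt_id' x).const_add 1).log (by linarith)
    have e2 : HasDerivAt (fun s : ℝ => log (1 - s)) (-1 / (1 - x)) x := by
      have := (hasDerivAt_id' x).const_sub 1
      exact this.log (by linarith)
    have e3 : HasDerivAt (fun s : ℝ => (1 + s) * log (1 + s)) (1 * log (1 + x) +
        (1 + x) * (1 / (1 + x))) x := ((hasDerivAt_id' x).const_add 1).mul e1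
    have e4 : HasDerivAt (fun s : ℝ => (1 - s) * log (1 - s)) (-1 * log (1 - x) +
        (1 - x) * (-1 / (1 - x))) x := ((hasDerivAt_id' x).const_sub 1).mul e2
    have e5 : HasDerivAt kap (log (1 + x) - log (1 - x)) x := by
      refine (e3.add e4).congr_deriv ?_
      have h1s : (1 - x) ≠ 0 := by linarith
      have h1s' : (1 + x) ≠ 0 := by linarith
      field_simp
      ring
    have e6 : HasDerivAt (fun s : ℝ => log (1 - kap s / (2 * log 2)))
        (-((log (1 + x) - log (1 - x)) / (2 * log 2)) / (1 - kap x / (2 * log 2))) x :=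
      ((e5.div_const (2 * log 2)).const_sub 1).log (hkd x hx0 hx1).ne'
    have e7 : HasDerivAt (fun s : ℝ => log (1 - s ^ 2)) (-(2 * x) / (1 - x ^ 2)) x := by
      have : HasDerivAt (fun s : ℝ => 1 - s ^ 2) (-(2 * x)) x := by
        have := (hasDerivAt_pow 2 x).const_sub 1
        simpa using this
      exact this.log hx2.ne'
    refine (e7.sub (e6.const_mul (2 * log 2))).congr_deriv ?_
    have hk : 0 < 2 * log 2 - kap x := by have := kap_lt x hx0 hx1; linarith
    have hk2 : 1 - kap x / (2 * log 2) = (2 * log 2 - kap x) / (2 * log 2) := by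
      field_simp
    rw [hk2]
    have hl : log 2 ≠ 0 := by linarith
    have hzz : 2 * zz x = -(2 * x) * (2 * log 2 - kap x) +
        2 * log 2 * (1 - x ^ 2) * (log (1 + x) - log (1 - x)) := by
      unfold zz kap
      ring
    rw [hzz]
    field_simp
    ring
  have hmono : MonotoneOn Y (Set.Ico 0 1) := by
    apply monotoneOn_of_deriv_nonneg (convex_Ico 0 1)
    · intro x hx
      exact (hd x hx.1 hx.2).continuousAt.continuousWithinAt
    · intro x hx
      rw [interior_Ico] at hx
      exact (hd x hx.1.le hx.2).differentiableAt.differentiableWithinAt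
    · intro x hx
      rw [interior_Ico] at hx
      rw [(hd x hx.1.le hx.2).deriv]
      have hx2 : 0 < 1 - x ^ 2 := by have := hx.1; have := hx.2; nlinarith
      have hk : 0 < 2 * log 2 - kap x := by have := kap_lt x hx.1.le hx.2; linarith
      have := zz_nonneg x hx.1 hx.2
      positivity
  have h := hmono (Set.mem_Ico.2 ⟨le_rfl, one_pos⟩) (Set.mem_Ico.2 ⟨h0, h1⟩) h0
  have hY0 : Y 0 = 0 := by
    simp [Y, kap]
  rw [hY0] at h
  simp only [Y] at h
  linarith

/-- Topsøe's bound on the binary entropy. -/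
lemma topsoe (s : ℝ) (h0 : 0 ≤ s) (h1 : s ≤ 1) :
    2 * log 2 * (1 - (1 - s ^ 2) ^ (1 / (2 * log 2))) ≤ kap s := by
  have ha := log_two_gt
  have hb := log_two_lt
  rcases h1.eq_or_lt with h | h
  · subst h
    have e : (0 : ℝ) ^ (1 / (2 * log 2)) = 0 := zero_rpow (by positivity)
    unfold kap
    norm_num
  · have hs2 : 0 < 1 - s ^ 2 := by nlinarith
    have hk := kap_lt s h0 h
    have hT := topsoe_log s h0 h
    have h1' : log (1 - kap s / (2 * log 2)) ≤ log (1 - s ^ 2) * (1 / (2 * log 2)) := by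
      rw [mul_one_div, le_div_iff₀ (by linarith)]
      linarith
    have hpos : 0 < 1 - kap s / (2 * log 2) := by
      rw [sub_pos, div_lt_one (by linarith)]
      exact hk
    have h2 : 1 - kap s / (2 * log 2) ≤ (1 - s ^ 2) ^ (1 / (2 * log 2)) := by
      rw [rpow_def_of_pos hs2, ← log_le_iff_le_exp hpos]
      exact h1'
    have h3 := mul_le_mul_of_nonneg_left h2 (show 0 ≤ 2 * log 2 by linarith)
    have h4 : 2 * log 2 * (1 - kap s / (2 * log 2)) = 2 * log 2 - kap s := by
      have : log 2 ≠ 0 := by linarith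
      field_simp
    rw [h4] at h3
    linarith

end Pool.Agent.Helper41.E243
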