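import Mathlib
import Pool.Agent.Helper41.E243.Topsoe

set_option autoImplicit false

namespace Pool.Agent.Helper41.E243

open Real

lemma ineq_ge (a x : ℝ) (ha : 1 / 2 ≤ a) (hx : 0 ≤ x) :
    0 ≤ a * x - 2 * (1 - exp (-(a * x))) + a * (1 - exp (-x)) := by
  let f : ℝ → ℝ := fun x => a * x - 2 * (1 - exp (-(a * x))) + a * (1 - exp (-x))
  have hd : ∀ y : ℝ, HasDerivAt f (a * (1 - 2 * exp (-(a * y)) + exp (-y))) y := by
    intro y
    have e1 : HasDerivAt (fun x : ℝ => exp (-(a * x))) (exp (-(a * y)) * (-(a * 1))) y :=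
      (((hasDerivAt_id' y).const_mul a).neg).exp
    have e2 : HasDerivAt (fun x : ℝ => exp (-x)) (exp (-y) * (-1)) y :=
      (hasDerivAt_neg y).exp
    have e3 := (((hasDerivAt_id' y).const_mul a).sub ((e1.const_sub 1).const_mul 2)).add
      ((e2.const_sub 1).const_mul a)
    refine e3.congr_deriv ?_
    ring
  have hmono : MonotoneOn f (Set.Ici 0) := by
    apply monotoneOn_of_deriv_nonneg (convex_Ici 0)
    · intro y _
      exact (hd y).continuousAt.continuousWithinAt
    · intro y _
      exact (hd y).differentiableAt.differentiableWithinAt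
    · intro y hy
      rw [interior_Ici] at hy
      have hy0 : 0 < y := hy
      rw [(hd y).deriv]
      apply mul_nonneg (by linarith)
      have h1 : exp (-(a * y)) ≤ exp (-(y / 2)) := by
        rw [exp_le_exp]
        nlinarith
      have h2 : exp (-y) = exp (-(y / 2)) ^ 2 := by
        rw [← exp_nat_mul]; congr 1; push_cast; ring
      nlinarith [sq_nonneg (1 - exp (-(y / 2)))]
  have h := hmono (Set.mem_Ici.2 le_rfl) (Set.mem_Ici.2 hx) hx
  have h0 : f 0 = 0 := by simp [f]
  rw [h0] at h
  exact h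

lemma ineq_le (a x : ℝ) (ha : 1 / 2 ≤ a) (hx : 0 ≤ x) :
    0 ≤ -(a * x) + (1 + exp (-x)) * (exp (a * x) - 1) - a * (1 - exp (-x)) := by
  let f : ℝ → ℝ := fun x => -(a * x) + (1 + exp (-x)) * (exp (a * x) - 1) - a * (1 - exp (-x))
  have hd : ∀ y : ℝ, HasDerivAt f ((exp (a * y) - 1) * (a - (1 - a) * exp (-y))) y := by
    intro y
    have e1 : HasDerivAt (fun x : ℝ => exp (a * x)) (exp (a * y) * (a * 1)) y :=
      ((hasDerivAt_id' y).const_mul a).exp
    have e2 : HasDerivAt (fun x : ℝ => exp (-x)) (exp (-y) * (-1)) y :=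
      (hasDerivAt_neg y).exp
    have e3 : HasDerivAt (fun x : ℝ => (1 + exp (-x)) * (exp (a * x) - 1))
        ((exp (-y) * (-1)) * (exp (a * y) - 1) + (1 + exp (-y)) * (exp (a * y) * (a * 1))) y :=
      (e2.const_add 1).mul (e1.sub_const 1)
    have e4 := ((((hasDerivAt_id' y).const_mul a).neg).add e3).sub
      ((e2.const_sub 1).const_mul a)
    refine e4.congr_deriv ?_
    ring
  have hmono : MonotoneOn f (Set.Ici 0) := by
    apply monotoneOn_of_deriv_nonneg (convex_Ici 0)
    · intro y _
      exact (hd y).continuousAt.continuousWithinAt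
    · intro y _
      exact (hd y).differentiableAt.differentiableWithinAt
    · intro y hy
      rw [interior_Ici] at hy
      have hy0 : 0 < y := hy
      rw [(hd y).deriv]
      have h1 : 1 ≤ exp (a * y) := one_le_exp (by positivity)
      have h2 : exp (-y) ≤ 1 := exp_le_one_iff.2 (by linarith)
      have h3 : 0 < exp (-y) := exp_pos _
      apply mul_nonneg (by linarith)
      rcases le_total a 1 with h | h
      · nlinarith
      · nlinarith
  have h := hmono (Set.mem_Ici.2 le_rfl) (Set.mem_Ici.2 hx) hx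
  have h0 : f 0 = 0 := by simp [f]
  rw [h0] at h
  exact h

/-- The inequality in the mean `m` and the parameter `h`. -/
lemma mean_ineq (a m h θ : ℝ) (ha : 1 / 2 ≤ a) (hm : 0 < m) (h1 : h ≤ 1)
    (hθ0 : 0 ≤ θ) (hθ1 : θ ≤ 1) (hc : h * exp (log m / a) ≤ θ) :
    0 ≤ m * log m - (1 + θ) * (m - 1) + a * m * (θ - h) := by
  have ha0 : 0 < a := by linarith
  rcases le_total 1 m with hm1 | hm1
  · -- `m ≥ 1`
    set x : ℝ := log m / a with hx
    have hlm : log m = a * x := by rw [hx]; field_simp
    have hx0 : 0 ≤ x := div_nonneg (log_nonneg hm1) ha0.le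
    have hI := ineq_ge a x ha hx0
    have hme : exp (-(a * x)) = m⁻¹ := by rw [← hlm, exp_neg, exp_log hm]
    rw [hme] at hI
    have hI' : 0 ≤ m * log m - 2 * (m - 1) + a * m * (1 - exp (-x)) := by
      have h2 := mul_nonneg hm.le hI
      have h3 : m * (a * x - 2 * (1 - m⁻¹) + a * (1 - exp (-x))) =
        m * log m - 2 * (m - 1) + a * m * (1 - exp (-x)) := by
        rw [hlm]; field_simp
      rw [h3] at h2
      exact h2
    have hh : h ≤ θ * exp (-x) := by
      rw [exp_neg, ← div_eq_mul_inv, le_div_iff₀ (exp_pos _)]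
      exact hc
    have hX : 0 ≤ m * log m - (m - 1) := by
      have := one_sub_inv_le_log_of_pos hm
      have h2 := mul_le_mul_of_nonneg_left this hm.le
      rw [mul_sub, mul_inv_cancel₀ hm.ne', mul_one] at h2
      linarith
    have h4 : a * m * h ≤ a * m * (θ * exp (-x)) :=
      mul_le_mul_of_nonneg_left hh (by positivity)
    have h5 := mul_nonneg hθ0 hI'
    have h6 := mul_nonneg (sub_nonneg.2 hθ1) hX
    nlinarith
  · set x : ℝ := -(log m / a) with hx
    have hlm : log m = -(a * x) := by rw [hx]; field_simp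
    have hx0 : 0 ≤ x := by
      rw [hx, neg_nonneg]
      exact div_nonpos_of_nonpos_of_nonneg (log_nonpos hm.le hm1) ha0.le
    have hI := ineq_le a x ha hx0
    have hme : exp (a * x) = m⁻¹ := by
      rw [show a * x = -log m by linarith, exp_neg, exp_log hm]
    rw [hme] at hI
    have hI' : 0 ≤ m * log m - (1 + exp (-x)) * (m - 1) - a * m * (1 - exp (-x)) := by
      have h2 := mul_nonneg hm.le hI
      have h3 : m * (-(a * x) + (1 + exp (-x)) * (m⁻¹ - 1) - a * (1 - exp (-x))) =
        m * log m - (1 + exp (-x)) * (m - 1) - a * m * (1 - exp (-x)) := by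
        rw [hlm]; field_simp; ring
      rw [h3] at h2
      exact h2
    have hX : 0 ≤ m * log m - (m - 1) := by
      have := one_sub_inv_le_log_of_pos hm
      have h2 := mul_le_mul_of_nonneg_left this hm.le
      rw [mul_sub, mul_inv_cancel₀ hm.ne', mul_one] at h2
      linarith
    have hex : exp (log m / a) = exp (-x) := by rw [hx, neg_neg]
    rw [hex] at hc
    have hE : 0 < exp (-x) := exp_pos _
    have hE1 : exp (-x) ≤ 1 := exp_le_one_iff.2 (by linarith)
    rcases le_total (exp (-x)) θ with hcase | hcase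
    · -- `h ≤ 1`
      have h4 : a * m * h ≤ a * m * 1 := mul_le_mul_of_nonneg_left h1 (by positivity)
      have h5 : 0 ≤ (θ - exp (-x)) * ((1 - m) + a * m) := by
        apply mul_nonneg (by linarith)
        have : 0 < a * m := by positivity
        linarith
      nlinarith
    · -- `h ≤ θ exp x`
      have h4 : a * m * (h * exp (-x)) ≤ a * m * θ := mul_le_mul_of_nonneg_left hc (by positivity)
      -- multiply the goal by `exp (-x)`
      have h5 := mul_nonneg hθ0 hI'
      have h6 := mul_nonneg (sub_nonneg.2 hcase) hX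
      have h7 : 0 ≤ exp (-x) * (m * log m - (1 + θ) * (m - 1) + a * m * (θ - h)) := by
        nlinarith
      exact nonneg_of_mul_nonneg_right h7 hE

/-- The improved pointwise inequality. -/
lemma pointwise2 (p q θ : ℝ) (hp : 0 ≤ p) (hq : 0 ≤ q) (hθ0 : 0 ≤ θ) (hθ1 : θ ≤ 1)
    (h : √(p * q) ≤ θ ^ (log 2)) :
    (1 + θ) * (p + q - 2) + log 2 * (1 - θ) * (p + q) ≤ p * log p + q * log q := by
  have ha := log_two_gt
  have hb := log_two_lt
  wlog hqp : q ≤ p generalizing p q
  · have := this q p hq hp (by rw [mul_comm]; exact h) (le_of_not_ge hqp)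
    linarith
  rcases hp.eq_or_lt with h0 | hp0
  · subst h0
    have : q = 0 := le_antisymm hqp hq
    subst this
    norm_num
    linarith
  set m : ℝ := (p + q) / 2 with hm
  have hm0 : 0 < m := by positivity
  set s : ℝ := (p - q) / (p + q) with hs
  have hs0 : 0 ≤ s := div_nonneg (by linarith) (by positivity)
  have hs1 : s ≤ 1 := by
    rw [hs, div_le_one (by positivity)]
    linarith
  have hpm : p = m * (1 + s) := by
    rw [hm, hs]; field_simp; ring
  have hqm : q = m * (1 - s) := by
    rw [hm, hs]; field_simp; ring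
  set hh : ℝ := (1 - s ^ 2) ^ (1 / (2 * log 2)) with hhh
  have hs2 : 0 ≤ 1 - s ^ 2 := by nlinarith
  have hh1 : hh ≤ 1 := rpow_le_one hs2 (by nlinarith [sq_nonneg s]) (by positivity)
  have hT := topsoe s hs0 hs1
  rw [← hhh] at hT
  have hc : hh * exp (log m / log 2) ≤ θ := by
    have e1 : exp (log m / log 2) = (m ^ 2) ^ (1 / (2 * log 2)) := by
      rw [rpow_def_of_pos (by positivity), log_pow]
      congr 1
      push_cast
      field_simp
    rw [e1, hhh, ← mul_rpow hs2 (by positivity)]
    have e2 : (1 - s ^ 2) * m ^ 2 = √(p * q) ^ 2 := by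
      rw [sq_sqrt (by positivity), hpm, hqm]; ring
    rw [e2]
    have e3 : √(p * q) ^ 2 ≤ θ ^ (2 * log 2) := by
      have := pow_le_pow_left₀ (sqrt_nonneg _) h 2
      rw [← rpow_natCast (θ ^ log 2) 2, ← rpow_mul hθ0] at this
      push_cast at this
      rw [mul_comm (2 : ℝ) (log 2)]
      exact this
    have e4 := rpow_le_rpow (by positivity) e3 (show 0 ≤ 1 / (2 * log 2) by positivity)
    rw [← rpow_mul hθ0, mul_one_div_cancel (by positivity), rpow_one] at e4
    exact e4
  have hM := mean_ineq (log 2) m hh θ (by linarith) hm0 hh1 hθ0 hθ1 hc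
  have hsum : p * log p + q * log q = 2 * (m * log m) + m * kap s := by
    unfold kap
    have g1 : p * log p = m * (1 + s) * (log m + log (1 + s)) := by
      rw [hpm, log_mul hm0.ne' (by positivity)]
    have g2 : q * log q = m * (1 - s) * (log m + log (1 - s)) := by
      rcases hs1.eq_or_lt with h1 | h1
      · rw [hqm, h1]; simp
      · rw [hqm, log_mul hm0.ne' (by linarith)]
    rw [g1, g2]
    ring
  rw [hsum]
  have hpq : p + q = 2 * m := by rw [hm]; ring
  rw [hpq]
  have h8 := mul_le_mul_of_nonneg_left hT hm0.le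
  nlinarith

end Pool.Agent.Helper41.E243
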