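import Mathlib
import Pool.Agent.Helper41.E243.Pointwise

set_option autoImplicit false
set_option linter.unusedSectionVars false

namespace Pool.Agent.Helper41.E243

open Finset Real

variable {X β ι : Type*} [DecidableEq X] [DecidableEq β] [DecidableEq ι]

/-- Number of members of `𝒜` with `p`-th trace `y`. -/
def cnt (tr : ι → X → β) (𝒜 : Finset X) (p : ι) (y : β) : ℕ :=
  (𝒜.filter (fun A => tr p A = y)).card

lemma sum_cnt (tr : ι → X → β) (𝒜 : Finset X) (p : ι) (T : Finset β)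
    (hT : ∀ A ∈ 𝒜, tr p A ∈ T) : ∑ y ∈ T, cnt tr 𝒜 p y = 𝒜.card :=
  (card_eq_sum_card_fiberwise (f := fun A => tr p A) (fun A hA => hT A hA)).symm

lemma cnt_pos (tr : ι → X → β) (𝒜 : Finset X) (p : ι) (A : X) (hA : A ∈ 𝒜) :
    0 < cnt tr 𝒜 p (tr p A) :=
  card_pos.2 ⟨A, mem_filter.2 ⟨hA, rfl⟩⟩

/-- The product of the marginals, summed over the family, is at most one. -/
lemma sum_prod_le (P : Finset ι) (T : ι → Finset β) (tr : ι → X → β) (𝒜 : Finset X)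
    (hT : ∀ p ∈ P, ∀ A ∈ 𝒜, tr p A ∈ T p)
    (hinj : ∀ A ∈ 𝒜, ∀ A' ∈ 𝒜, (∀ p ∈ P, tr p A = tr p A') → A = A')
    (g : ι → β → ℝ) (hg : ∀ p y, 0 ≤ g p y) (hg1 : ∀ p ∈ P, ∑ y ∈ T p, g p y ≤ 1) :
    ∑ A ∈ 𝒜, ∏ p ∈ P, g p (tr p A) ≤ 1 := by
  let φ : X → (∀ p ∈ P, β) := fun A p _ => tr p A
  have h1 : ∑ A ∈ 𝒜, ∏ p ∈ P, g p (tr p A) =
      ∑ f ∈ 𝒜.image φ, ∏ x ∈ P.attach, g x.1 (f x.1 x.2) := by
    rw [sum_image]
    · apply sum_congr rfl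
      intro A _
      rw [← prod_attach]
    · intro A hA A' hA' h
      apply hinj A hA A' hA'
      intro p hp
      exact congrFun (congrFun h p) hp
  rw [h1]
  calc ∑ f ∈ 𝒜.image φ, ∏ x ∈ P.attach, g x.1 (f x.1 x.2)
      ≤ ∑ f ∈ P.pi T, ∏ x ∈ P.attach, g x.1 (f x.1 x.2) := by
        apply sum_le_sum_of_subset_of_nonneg
        · intro f hf
          obtain ⟨A, hA, rfl⟩ := mem_image.1 hf
          rw [mem_pi]
          intro p hp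
          exact hT p hp A hA
        · intro f _ _
          exact prod_nonneg (fun x _ => hg _ _)
    _ = ∏ p ∈ P, ∑ y ∈ T p, g p y := (prod_sum P T g).symm
    _ ≤ 1 := prod_le_one (fun p _ => sum_nonneg (fun y _ => hg p y)) hg1

/-- Subadditivity of entropy, in the form needed. -/
lemma entropy_sub (P : Finset ι) (T : ι → Finset β) (tr : ι → X → β) (𝒜 : Finset X)
    (h𝒜 : 𝒜.Nonempty) (hT : ∀ p ∈ P, ∀ A ∈ 𝒜, tr p A ∈ T p)
    (hinj : ∀ A ∈ 𝒜, ∀ A' ∈ 𝒜, (∀ p ∈ P, tr p A = tr p A') → A = A') :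
    ∑ p ∈ P, ∑ y ∈ T p, ((cnt tr 𝒜 p y : ℝ) / 𝒜.card) *
        log ((cnt tr 𝒜 p y : ℝ) * (T p).card / 𝒜.card) ≤
      log ((∏ p ∈ P, ((T p).card : ℝ)) / 𝒜.card) := by
  have hc : (0 : ℝ) < 𝒜.card := by exact_mod_cast h𝒜.card_pos
  have hTpos : ∀ p ∈ P, (0 : ℝ) < (T p).card := by
    intro p hp
    obtain ⟨A, hA⟩ := h𝒜
    exact_mod_cast card_pos.2 ⟨_, hT p hp A hA⟩
  have hN : (0 : ℝ) < ∏ p ∈ P, ((T p).card : ℝ) := prod_pos hTpos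
  -- rewrite the left side as an average over the family
  have h1 : ∀ p ∈ P, ∑ y ∈ T p, ((cnt tr 𝒜 p y : ℝ) / 𝒜.card) *
        log ((cnt tr 𝒜 p y : ℝ) * (T p).card / 𝒜.card) =
      (1 / 𝒜.card) * ∑ A ∈ 𝒜, log ((cnt tr 𝒜 p (tr p A) : ℝ) * (T p).card / 𝒜.card) := by
    intro p hp
    rw [← sum_fiberwise_of_maps_to (g := fun A => tr p A) (fun A hA => hT p hp A hA), mul_sum]
    apply sum_congr rfl
    intro y _
    have : ∑ A ∈ 𝒜 with tr p A = y, log ((cnt tr 𝒜 p (tr p A) : ℝ) * (T p).card / 𝒜.card) =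
        (cnt tr 𝒜 p y : ℝ) * log ((cnt tr 𝒜 p y : ℝ) * (T p).card / 𝒜.card) := by
      rw [sum_congr rfl (g := fun _ => log ((cnt tr 𝒜 p y : ℝ) * (T p).card / 𝒜.card)),
        sum_const, nsmul_eq_mul]
      · rfl
      · intro A hA
        rw [(mem_filter.1 hA).2]
    rw [this]
    ring
  rw [sum_congr rfl h1, ← mul_sum, sum_comm]
  -- log of product
  have h2 : ∀ A ∈ 𝒜, ∑ p ∈ P, log ((cnt tr 𝒜 p (tr p A) : ℝ) * (T p).card / 𝒜.card) =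
      log (∏ p ∈ P, ((cnt tr 𝒜 p (tr p A) : ℝ) / 𝒜.card)) + log (∏ p ∈ P, ((T p).card : ℝ)) := by
    intro A hA
    have hne : ∀ p ∈ P, ((cnt tr 𝒜 p (tr p A) : ℝ) / 𝒜.card) ≠ 0 := by
      intro p _
      have : (0 : ℝ) < cnt tr 𝒜 p (tr p A) := by exact_mod_cast cnt_pos tr 𝒜 p A hA
      positivity
    rw [log_prod hne, log_prod (fun p hp => (hTpos p hp).ne'), ← sum_add_distrib]
    apply sum_congr rfl
    intro p hp
    rw [← log_mul (hne p hp) (hTpos p hp).ne']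
    congr 1
    ring
  rw [sum_congr rfl h2]
  -- pointwise bound
  have h3 : ∀ A ∈ 𝒜, log (∏ p ∈ P, ((cnt tr 𝒜 p (tr p A) : ℝ) / 𝒜.card)) +
      log (∏ p ∈ P, ((T p).card : ℝ)) ≤
      (∏ p ∈ P, ((cnt tr 𝒜 p (tr p A) : ℝ) / 𝒜.card)) * 𝒜.card - 1 +
        log ((∏ p ∈ P, ((T p).card : ℝ)) / 𝒜.card) := by
    intro A hA
    have hpos : 0 < ∏ p ∈ P, ((cnt tr 𝒜 p (tr p A) : ℝ) / 𝒜.card) := by
      apply prod_pos
      intro p _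
      have : (0 : ℝ) < cnt tr 𝒜 p (tr p A) := by exact_mod_cast cnt_pos tr 𝒜 p A hA
      positivity
    have := log_le_sub_one_of_pos (mul_pos hpos hc)
    rw [log_mul hpos.ne' hc.ne'] at this
    rw [log_div hN.ne' hc.ne']
    linarith
  have h4 := sum_le_sum h3
  have h5 := sum_prod_le P T tr 𝒜 hT hinj (fun p y => (cnt tr 𝒜 p y : ℝ) / 𝒜.card)
    (fun p y => by positivity) (by
      intro p hp
      rw [← sum_div, div_le_one hc]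
      have := sum_cnt tr 𝒜 p (T p) (hT p hp)
      exact_mod_cast this.le)
  rw [sum_add_distrib (g := fun _ => log ((∏ p ∈ P, ((T p).card : ℝ)) / 𝒜.card)),
    sum_sub_distrib, ← sum_mul, sum_const, sum_const, nsmul_eq_mul, nsmul_eq_mul, mul_one] at h4
  have h6 : (∑ A ∈ 𝒜, ∏ p ∈ P, ((cnt tr 𝒜 p (tr p A) : ℝ) / 𝒜.card)) * 𝒜.card ≤ 𝒜.card := by
    have := mul_le_mul_of_nonneg_right h5 hc.le
    linarith
  have h7 : (1 / (𝒜.card : ℝ)) * ((𝒜.card : ℝ) * log ((∏ p ∈ P, ((T p).card : ℝ)) / 𝒜.card)) =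
      log ((∏ p ∈ P, ((T p).card : ℝ)) / 𝒜.card) := by
    field_simp
  rw [← h7]
  apply mul_le_mul_of_nonneg_left _ (by positivity)
  linarith

/-- If the traces of the two families are nowhere simultaneously popular, then the families are
small. -/
lemma main_ineq (P : Finset ι) (T : ι → Finset β) (tr : ι → X → β) (𝒜 ℬ : Finset X)
    (h𝒜 : 𝒜.Nonempty) (hℬ : ℬ.Nonempty)
    (hT : ∀ p ∈ P, ∀ A ∈ 𝒜, tr p A ∈ T p) (hT' : ∀ p ∈ P, ∀ A ∈ ℬ, tr p A ∈ T p)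
    (hinj : ∀ A ∈ 𝒜, ∀ A' ∈ 𝒜, (∀ p ∈ P, tr p A = tr p A') → A = A')
    (hinj' : ∀ A ∈ ℬ, ∀ A' ∈ ℬ, (∀ p ∈ P, tr p A = tr p A') → A = A')
    (θ : ℝ) (hθ0 : 0 ≤ θ) (hθ1 : θ ≤ 1)
    (hθ : ∀ p ∈ P, ∀ y ∈ T p, √((cnt tr 𝒜 p y : ℝ) * cnt tr ℬ p y) * (T p).card ≤
      θ ^ (log 2) * √((𝒜.card : ℝ) * ℬ.card)) :
    2 * log 2 * (P.card * (1 - θ)) ≤
      log ((∏ p ∈ P, ((T p).card : ℝ)) / 𝒜.card) + log ((∏ p ∈ P, ((T p).card : ℝ)) / ℬ.card) := by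
  have ha : (0 : ℝ) < 𝒜.card := by exact_mod_cast h𝒜.card_pos
  have hb : (0 : ℝ) < ℬ.card := by exact_mod_cast hℬ.card_pos
  have hab : (0 : ℝ) < √((𝒜.card : ℝ) * ℬ.card) := by positivity
  have hTpos : ∀ p ∈ P, (0 : ℝ) < (T p).card := by
    intro p hp
    obtain ⟨A, hA⟩ := h𝒜
    exact_mod_cast card_pos.2 ⟨_, hT p hp A hA⟩
  refine le_trans ?_ (add_le_add (entropy_sub P T tr 𝒜 h𝒜 hT hinj)
    (entropy_sub P T tr ℬ hℬ hT' hinj'))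
  rw [← sum_add_distrib]
  have hp : ∀ p ∈ P, 2 * log 2 * (1 - θ) ≤
      ∑ y ∈ T p, ((cnt tr 𝒜 p y : ℝ) / 𝒜.card) * log ((cnt tr 𝒜 p y : ℝ) * (T p).card / 𝒜.card) +
      ∑ y ∈ T p, ((cnt tr ℬ p y : ℝ) / ℬ.card) * log ((cnt tr ℬ p y : ℝ) * (T p).card / ℬ.card) := by
    intro p hp
    have hm := hTpos p hp
    set m : ℝ := ((T p).card : ℝ) with hmdef
    rw [← sum_add_distrib]
    have hy : ∀ y ∈ T p, (1 / m) * ((1 + θ) * ((cnt tr 𝒜 p y : ℝ) * m / 𝒜.card +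
        (cnt tr ℬ p y : ℝ) * m / ℬ.card - 2) + log 2 * (1 - θ) *
        ((cnt tr 𝒜 p y : ℝ) * m / 𝒜.card + (cnt tr ℬ p y : ℝ) * m / ℬ.card)) ≤
      ((cnt tr 𝒜 p y : ℝ) / 𝒜.card) * log ((cnt tr 𝒜 p y : ℝ) * m / 𝒜.card) +
      ((cnt tr ℬ p y : ℝ) / ℬ.card) * log ((cnt tr ℬ p y : ℝ) * m / ℬ.card) := by
      intro y hyT
      have hs : √(((cnt tr 𝒜 p y : ℝ) * m / 𝒜.card) * ((cnt tr ℬ p y : ℝ) * m / ℬ.card)) ≤
          θ ^ (log 2) := by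
        have h1 : ((cnt tr 𝒜 p y : ℝ) * m / 𝒜.card) * ((cnt tr ℬ p y : ℝ) * m / ℬ.card) =
            ((cnt tr 𝒜 p y : ℝ) * cnt tr ℬ p y) * m ^ 2 / ((𝒜.card : ℝ) * ℬ.card) := by
          field_simp
        rw [h1, sqrt_div (by positivity), sqrt_mul (by positivity), sqrt_sq hm.le,
          div_le_iff₀ hab]
        exact hθ p hp y hyT
      have hpw := pointwise2 ((cnt tr 𝒜 p y : ℝ) * m / 𝒜.card) ((cnt tr ℬ p y : ℝ) * m / ℬ.card)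
        θ (by positivity) (by positivity) hθ0 hθ1 hs
      have h3 := mul_le_mul_of_nonneg_left hpw (show 0 ≤ 1 / m by positivity)
      refine h3.trans (le_of_eq ?_)
      field_simp
    refine le_trans (le_of_eq ?_) (sum_le_sum hy)
    have e1 : ∑ y ∈ T p, (cnt tr 𝒜 p y : ℝ) = 𝒜.card := by
      exact_mod_cast sum_cnt tr 𝒜 p (T p) (hT p hp)
    have e2 : ∑ y ∈ T p, (cnt tr ℬ p y : ℝ) = ℬ.card := by
      exact_mod_cast sum_cnt tr ℬ p (T p) (hT' p hp)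
    have e3 : ∑ y ∈ T p, (1 / m) * ((1 + θ) * ((cnt tr 𝒜 p y : ℝ) * m / 𝒜.card +
        (cnt tr ℬ p y : ℝ) * m / ℬ.card - 2) + log 2 * (1 - θ) *
        ((cnt tr 𝒜 p y : ℝ) * m / 𝒜.card + (cnt tr ℬ p y : ℝ) * m / ℬ.card)) =
        (1 / m) * ((1 + θ) * ((∑ y ∈ T p, (cnt tr 𝒜 p y : ℝ)) * m / 𝒜.card +
        (∑ y ∈ T p, (cnt tr ℬ p y : ℝ)) * m / ℬ.card - m * 2) + log 2 * (1 - θ) *
        ((∑ y ∈ T p, (cnt tr 𝒜 p y : ℝ)) * m / 𝒜.card +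
          (∑ y ∈ T p, (cnt tr ℬ p y : ℝ)) * m / ℬ.card)) := by
      rw [← mul_sum, sum_add_distrib, ← mul_sum, ← mul_sum, sum_sub_distrib, sum_add_distrib,
        ← sum_div, ← sum_div, ← sum_mul, ← sum_mul, sum_const, nsmul_eq_mul, ← hmdef]
    rw [e3, e1, e2]
    field_simp
    ring
  calc 2 * log 2 * (P.card * (1 - θ)) = ∑ p ∈ P, 2 * log 2 * (1 - θ) := by
        rw [sum_const, nsmul_eq_mul]; ring
    _ ≤ _ := sum_le_sum hp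

end Pool.Agent.Helper41.E243
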