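import Mathlib
import Pool.Agent.Helper41.E243.Entropy

set_option autoImplicit false
set_option linter.unusedSectionVars false

namespace Pool.Agent.Helper41.E243

open Finset Real

variable {V : Type*} [Fintype V] [DecidableEq V]

/-- Edges of `S` whose ends have different colours. -/
def cr {K : Type*} [DecidableEq K] (S : Finset (Sym2 V)) (c : V → K) : Finset (Sym2 V) :=
  S.filter (fun e => ¬ (e.map c).IsDiag)

/-- Edges of `S` whose colour pair is `p`. -/
def blk {K : Type*} [DecidableEq K] (S : Finset (Sym2 V)) (c : V → K) (p : Sym2 K) :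
    Finset (Sym2 V) :=
  S.filter (fun e => e.map c = p)

/-- The non-diagonal pairs. -/
def offd (K : Type*) [Fintype K] [DecidableEq K] : Finset (Sym2 K) :=
  univ.filter (fun p => ¬ p.IsDiag)

lemma card_offd (K : Type*) [Fintype K] [DecidableEq K] :
    (offd K).card = (Fintype.card K).choose 2 := by
  rw [← Sym2.card_subtype_not_diag, Fintype.card_subtype]
  rfl

lemma card_cr {K : Type*} [Fintype K] [DecidableEq K] (S : Finset (Sym2 V)) (c : V → K) :
    (cr S c).card = ∑ p ∈ offd K, (blk S c p).card := by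
  rw [card_eq_sum_card_fiberwise (f := fun e : Sym2 V => e.map c) (t := offd K)]
  · apply sum_congr rfl
    intro p hp
    congr 1
    ext e
    simp only [cr, blk, mem_filter]
    constructor
    · rintro ⟨⟨h1, _⟩, h2⟩; exact ⟨h1, h2⟩
    · rintro ⟨h1, h2⟩
      refine ⟨⟨h1, ?_⟩, h2⟩
      rw [h2]
      exact (mem_filter.1 hp).2
  · intro e he
    simp only [cr, coe_filter, Set.mem_ofPred_eq] at he
    simp only [offd, coe_filter, mem_univ, true_and, Set.mem_ofPred_eq]
    exact he.2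

lemma prod_card_blk {K : Type*} [Fintype K] [DecidableEq K] (S : Finset (Sym2 V)) (c : V → K) :
    ∏ p ∈ offd K, (((blk S c p).powerset.card : ℕ) : ℝ) = 2 ^ (cr S c).card := by
  rw [card_cr, ← prod_pow_eq_pow_sum]
  apply prod_congr rfl
  intro p _
  rw [card_powerset]
  push_cast
  rfl

/-- Merge colour `j` into colour `i`. -/
def mrg {K : Type*} [DecidableEq K] (c : V → K) (i j : K) (hij : i ≠ j) : V → {x : K // x ≠ j} :=
  fun v => if h : c v = j then ⟨i, hij⟩ else ⟨c v, h⟩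

lemma mrg_isDiag {K : Type*} [DecidableEq K] (c : V → K) (i j : K) (hij : i ≠ j) (e : Sym2 V) :
    (e.map (mrg c i j hij)).IsDiag ↔ (e.map c).IsDiag ∨ e.map c = s(i, j) := by
  induction e using Sym2.ind with
  | _ u v =>
    simp only [Sym2.map_mk, Sym2.mk_isDiag_iff, Sym2.eq_iff]
    unfold mrg
    by_cases hu : c u = j <;> by_cases hv : c v = j
    · simp [hu, hv]
    · have hv' : ¬ j = c v := fun h => hv h.symm
      simp [hu, hv, hv', eq_comm]
    · simp [hu, hv]
    · simp [hu, hv]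

lemma card_cr_mrg {K : Type*} [Fintype K] [DecidableEq K] (S : Finset (Sym2 V)) (c : V → K)
    (i j : K) (hij : i ≠ j) :
    (cr S (mrg c i j hij)).card + (blk S c s(i, j)).card = (cr S c).card := by
  have h1 : (cr S c).filter (fun e => ¬ e.map c = s(i, j)) = cr S (mrg c i j hij) := by
    ext e
    simp only [cr, mem_filter, mrg_isDiag]
    tauto
  have h2 : (cr S c).filter (fun e => e.map c = s(i, j)) = blk S c s(i, j) := by
    ext e
    simp only [cr, blk, mem_filter]
    constructor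
    · rintro ⟨⟨h1, _⟩, h2⟩; exact ⟨h1, h2⟩
    · rintro ⟨h1, h2⟩
      refine ⟨⟨h1, ?_⟩, h2⟩
      rw [h2]
      simpa using hij
  have h3 := card_filter_add_card_filter_not (s := cr S c) (fun e => e.map c = s(i, j))
  rw [h1, h2] at h3
  omega

/-- The induction on the number of colours. -/
theorem merge_bound (S : Finset (Sym2 V)) (t : ℕ) (b E : ℕ → ℝ)
    (hb : ∀ k, t ≤ k → b k ≤ b (k + 1) * (1 - E (k + 1) / ((k + 1).choose 2 : ℝ)))
    (hE0 : ∀ k, t ≤ k → 0 ≤ E k) (hEN : ∀ k, t ≤ k → E k ≤ (k.choose 2 : ℝ))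
    (hEb : ∀ k, t ≤ k → (t.choose 2 : ℝ) - log (b k) ≤ E k)
    (hb1 : ∀ k, t ≤ k → 1 ≤ b k) (ht : 1 ≤ t) :
    ∀ (k : ℕ) (K : Type) [Fintype K] [DecidableEq K] (c : V → K)
      (𝒜 ℬ : Finset (Finset (Sym2 V))), Fintype.card K = k → 𝒜.Nonempty → ℬ.Nonempty →
      (∀ A ∈ 𝒜, A ⊆ S) → (∀ B ∈ ℬ, B ⊆ S) →
      (∀ A ∈ 𝒜, ∀ B ∈ ℬ, ∀ e ∈ S, (e.map c).IsDiag → (e ∈ A ↔ e ∈ B)) →
      (∀ A ∈ 𝒜, ∀ B ∈ ℬ, ∀ (L : Type) [Fintype L] (f : V → L), Fintype.card L < t →
        ∃ e ∈ S, (e.map f).IsDiag ∧ ¬ (e ∈ A ↔ e ∈ B)) →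
      t ≤ k ∧ √((𝒜.card : ℝ) * ℬ.card) ≤
        2 ^ (cr S c).card * (2 ^ (t.choose 2))⁻¹ * b k ^ (log 2) := by
  intro k
  induction k with
  | zero =>
    intro K _ _ c 𝒜 ℬ hK h𝒜 hℬ hAS hBS hag hχ
    exfalso
    obtain ⟨A, hA⟩ := h𝒜
    obtain ⟨B, hB⟩ := hℬ
    obtain ⟨e, he, hd, hne⟩ := hχ A hA B hB K c (by omega)
    exact hne (hag A hA B hB e he hd)
  | succ k ih =>
    intro K _ _ c 𝒜 ℬ hK h𝒜 hℬ hAS hBS hag hχ
    have htk : t ≤ k + 1 := by
      by_contra hlt
      obtain ⟨A, hA⟩ := h𝒜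
      obtain ⟨B, hB⟩ := hℬ
      obtain ⟨e, he, hd, hne⟩ := hχ A hA B hB K c (by omega)
      exact hne (hag A hA B hB e he hd)
    refine ⟨htk, ?_⟩
    by_contra hcon
    push Not at hcon
    have ha : (0 : ℝ) < 𝒜.card := by exact_mod_cast h𝒜.card_pos
    have hbb : (0 : ℝ) < ℬ.card := by exact_mod_cast hℬ.card_pos
    have hab : (0 : ℝ) < √((𝒜.card : ℝ) * ℬ.card) := by positivity
    have hlog2 : 0 ≤ log 2 := log_nonneg (by norm_num)
    have hbk : 1 ≤ b (k + 1) ^ (log 2) := one_le_rpow (hb1 (k + 1) htk) hlog2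
    -- the trace maps
    let tr : Sym2 K → Finset (Sym2 V) → Finset (Sym2 V) :=
      fun p A => A.filter (fun e => e.map c = p)
    have htrT : ∀ 𝒞 : Finset (Finset (Sym2 V)), (∀ A ∈ 𝒞, A ⊆ S) →
        ∀ p ∈ offd K, ∀ A ∈ 𝒞, tr p A ∈ (blk S c p).powerset := by
      intro 𝒞 h𝒞 p _ A hA
      rw [mem_powerset]
      exact filter_subset_filter _ (h𝒞 A hA)
    have hA2 : ∀ A ∈ 𝒜, ∀ A' ∈ 𝒜, (∀ p ∈ offd K, tr p A = tr p A') → A = A' := by
      obtain ⟨B, hB⟩ := hℬ
      intro A hA A' hA' h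
      ext e
      by_cases heS : e ∈ S
      · by_cases hd : (e.map c).IsDiag
        · rw [hag A hA B hB e heS hd, hag A' hA' B hB e heS hd]
        · have := h (e.map c) (mem_filter.2 ⟨mem_univ _, hd⟩)
          have h2 : e ∈ tr (e.map c) A ↔ e ∈ tr (e.map c) A' := by rw [this]
          simpa [tr] using h2
      · exact ⟨fun h => absurd (hAS A hA h) heS, fun h => absurd (hAS A' hA' h) heS⟩
    have hB2 : ∀ A ∈ ℬ, ∀ A' ∈ ℬ, (∀ p ∈ offd K, tr p A = tr p A') → A = A' := by
      obtain ⟨B, hB⟩ := h𝒜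
      intro A hA A' hA' h
      ext e
      by_cases heS : e ∈ S
      · by_cases hd : (e.map c).IsDiag
        · rw [← hag B hB A hA e heS hd, ← hag B hB A' hA' e heS hd]
        · have := h (e.map c) (mem_filter.2 ⟨mem_univ _, hd⟩)
          have h2 : e ∈ tr (e.map c) A ↔ e ∈ tr (e.map c) A' := by rw [this]
          simpa [tr] using h2
      · exact ⟨fun h => absurd (hBS A hA h) heS, fun h => absurd (hBS A' hA' h) heS⟩
    have hE0' := hE0 (k + 1) htk
    have hEN' := hEN (k + 1) htk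
    set θ : ℝ := 1 - E (k + 1) / ((k + 1).choose 2 : ℝ) with hθ
    have hθ0 : 0 ≤ θ := by
      rw [hθ, sub_nonneg]
      exact div_le_one_of_le₀ hEN' (by positivity)
    have hθ1 : θ ≤ 1 := by
      rw [hθ, sub_le_self_iff]
      positivity
    have hθa : 0 ≤ θ ^ (log 2) := rpow_nonneg hθ0 _
    -- there is a popular common trace
    have hex : ∃ p ∈ offd K, ∃ y ∈ (blk S c p).powerset,
        θ ^ (log 2) * √((𝒜.card : ℝ) * ℬ.card) <
          √((cnt tr 𝒜 p y : ℝ) * cnt tr ℬ p y) * ((blk S c p).powerset.card : ℝ) := by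
      by_contra hno
      push Not at hno
      have h := main_ineq (offd K) (fun p => (blk S c p).powerset) tr 𝒜 ℬ h𝒜 hℬ
        (htrT 𝒜 hAS) (htrT ℬ hBS) hA2 hB2 θ hθ0 hθ1 hno
      have hN := prod_card_blk S c
      rw [hN, card_offd, hK, ← log_mul (by positivity) (by positivity)] at h
      have hC' : E (k + 1) ≤ ((((k + 1).choose 2 : ℕ) : ℝ)) * (1 - θ) := by
        rcases Nat.eq_zero_or_pos ((k + 1).choose 2) with h0 | h0
        · rw [h0, Nat.cast_zero] at hEN' ⊢
          linarith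
        · rw [hθ]
          have : (((k + 1).choose 2 : ℕ) : ℝ) ≠ 0 := by exact_mod_cast h0.ne'
          field_simp
          linarith
      have hl2 : 0 < log 2 := log_pos (by norm_num)
      have h4 : 2 * log 2 * E (k + 1) ≤
          log ((2 : ℝ) ^ (cr S c).card / 𝒜.card * (2 ^ (cr S c).card / ℬ.card)) :=
        le_trans (mul_le_mul_of_nonneg_left hC' (by positivity)) h
      have h6 : (2 : ℝ) ^ (cr S c).card / 𝒜.card * (2 ^ (cr S c).card / ℬ.card) =
          (2 ^ (cr S c).card / √((𝒜.card : ℝ) * ℬ.card)) ^ 2 := by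
        rw [div_pow, sq_sqrt (by positivity)]
        field_simp
      rw [h6, log_pow] at h4
      have hbpos : 0 < b (k + 1) := zero_lt_one.trans_le (hb1 (k + 1) htk)
      have h7 : log (2 ^ (cr S c).card / √((𝒜.card : ℝ) * ℬ.card)) <
          log (2 ^ (t.choose 2) / b (k + 1) ^ (log 2)) := by
        apply log_lt_log (by positivity)
        rw [div_lt_div_iff₀ hab (by positivity)]
        rw [← div_eq_mul_inv, div_mul_eq_mul_div, div_lt_iff₀ (by positivity)] at hcon
        linarith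
      have h7' : log ((2 : ℝ) ^ (t.choose 2) / b (k + 1) ^ (log 2)) =
          (t.choose 2 : ℝ) * log 2 - log 2 * log (b (k + 1)) := by
        rw [log_div (by positivity) (by positivity), log_pow, log_rpow hbpos]
      rw [h7'] at h7
      have h8 := mul_le_mul_of_nonneg_left (hEb (k + 1) htk) hl2.le
      push_cast at h4
      nlinarith
    obtain ⟨p, hp, y, hy, hpy⟩ := hex
    have hpd : ¬ p.IsDiag := (mem_filter.1 hp).2
    induction p using Sym2.ind with
    | _ i j =>
      have hij : i ≠ j := by simpa using hpd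
      set 𝒜' := 𝒜.filter (fun A => tr s(i, j) A = y) with h𝒜'
      set ℬ' := ℬ.filter (fun A => tr s(i, j) A = y) with hℬ'
      have hcA : cnt tr 𝒜 s(i, j) y = 𝒜'.card := rfl
      have hcB : cnt tr ℬ s(i, j) y = ℬ'.card := rfl
      rw [hcA, hcB] at hpy
      have hpos : 0 < √((𝒜'.card : ℝ) * ℬ'.card) := by
        by_contra h0
        have h0' : √((𝒜'.card : ℝ) * ℬ'.card) = 0 := le_antisymm (not_lt.1 h0) (sqrt_nonneg _)
        rw [h0', zero_mul] at hpy
        have : 0 ≤ θ ^ (log 2) * √((𝒜.card : ℝ) * ℬ.card) := by positivity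
        linarith
      have hprod : (0 : ℝ) < (𝒜'.card : ℝ) * ℬ'.card := sqrt_pos.1 hpos
      have hA'ne : 𝒜'.Nonempty := by
        rw [nonempty_iff_ne_empty]
        intro h0
        rw [h0, card_empty, Nat.cast_zero, zero_mul] at hprod
        exact lt_irrefl _ hprod
      have hB'ne : ℬ'.Nonempty := by
        rw [nonempty_iff_ne_empty]
        intro h0
        rw [h0, card_empty, Nat.cast_zero, mul_zero] at hprod
        exact lt_irrefl _ hprod
      have hcardK : Fintype.card {x : K // x ≠ j} = k := by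
        rw [Fintype.card_subtype_compl, Fintype.card_subtype_eq, hK]
        rfl
      have hrec := ih {x : K // x ≠ j} (mrg c i j hij) 𝒜' ℬ' hcardK hA'ne hB'ne
        (fun A hA => hAS A (mem_filter.1 hA).1) (fun B hB => hBS B (mem_filter.1 hB).1)
        (by
          intro A hA B hB e he hd
          rw [mem_filter] at hA hB
          rw [mrg_isDiag] at hd
          rcases hd with hd | hd
          · exact hag A hA.1 B hB.1 e he hd
          · have h1 : e ∈ tr s(i, j) A ↔ e ∈ tr s(i, j) B := by rw [hA.2, hB.2]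
            simpa [tr, hd] using h1)
        (fun A hA B hB => hχ A (mem_filter.1 hA).1 B (mem_filter.1 hB).1)
      obtain ⟨htk', hrec⟩ := hrec
      have hbrec : b k ^ (log 2) ≤ b (k + 1) ^ (log 2) * θ ^ (log 2) := by
        rw [← mul_rpow (zero_le_one.trans (hb1 (k + 1) htk)) hθ0]
        exact rpow_le_rpow (zero_le_one.trans (hb1 k htk')) (hb k htk') hlog2
      -- combine
      have hcard := card_cr_mrg S c i j hij
      have hTcard : (((blk S c s(i, j)).powerset.card : ℕ) : ℝ) = 2 ^ (blk S c s(i, j)).card := by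
        rw [card_powerset]; push_cast; rfl
      rw [hTcard] at hpy
      have h8 : θ ^ (log 2) * √((𝒜.card : ℝ) * ℬ.card) <
          2 ^ (cr S c).card * (2 ^ (t.choose 2))⁻¹ * b k ^ (log 2) := by
        calc θ ^ (log 2) * √((𝒜.card : ℝ) * ℬ.card) < √((𝒜'.card : ℝ) * ℬ'.card) *
              2 ^ (blk S c s(i, j)).card := hpy
          _ ≤ (2 ^ (cr S (mrg c i j hij)).card * (2 ^ (t.choose 2))⁻¹ * b k ^ (log 2)) *
              2 ^ (blk S c s(i, j)).card := by gcongr
          _ = _ := by rw [← hcard, pow_add]; ring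
      have h9 : θ ^ (log 2) * (2 ^ (cr S c).card * (2 ^ (t.choose 2))⁻¹ * b (k + 1) ^ (log 2)) ≤
          θ ^ (log 2) * √((𝒜.card : ℝ) * ℬ.card) := mul_le_mul_of_nonneg_left hcon.le hθa
      have h10 : 2 ^ (cr S c).card * (2 ^ (t.choose 2))⁻¹ * b k ^ (log 2) ≤
          2 ^ (cr S c).card * (2 ^ (t.choose 2))⁻¹ * (b (k + 1) ^ (log 2) * θ ^ (log 2)) :=
        mul_le_mul_of_nonneg_left hbrec (by positivity)
      nlinarith

end Pool.Agent.Helper41.E243
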